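import Pool.Agent.W345.GK.TF

/-! Project GK, part TA6: the key computation. -/

set_option autoImplicit false

open Finset

namespace Pool.Agent.W753.GK.TA6

open Pool.Agent.W345.GK

/-- the exponent of the term of the permutation `σ` in the alternant of `s` -/
noncomputable def uu {n : ℕ} (s : Fin n → ℕ) (σ : Equiv.Perm (Fin n)) : Fin n →₀ ℕ :=
  Finsupp.equivFunOnFinite.symm fun k => s (σ⁻¹ k)

theorem uu_apply {n : ℕ} (s : Fin n → ℕ) (σ : Equiv.Perm (Fin n)) (k : Fin n) :
    uu s σ k = s (σ⁻¹ k) := rfl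

section

variable {L : Type} [Field L]

theorem alt_eq {n : ℕ} (s : Fin n → ℕ) : (alt s : MvPolynomial (Fin n) L) =
    ∑ σ : Equiv.Perm (Fin n),
      MvPolynomial.monomial (uu s σ) (((Equiv.Perm.sign σ : ℤ) : L)) := by
  unfold alt
  rw [Matrix.det_apply']
  refine Finset.sum_congr rfl fun σ _ => ?_
  have h1 : ∏ i, (Matrix.of fun i j => (MvPolynomial.X i : MvPolynomial (Fin n) L) ^ s j) (σ i) i =
      ∏ k, (MvPolynomial.X k : MvPolynomial (Fin n) L) ^ (uu s σ k) := by
    rw [← Equiv.prod_comp σ (fun k => (MvPolynomial.X k : MvPolynomial (Fin n) L) ^ (uu s σ k))]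
    refine Finset.prod_congr rfl fun i _ => ?_
    rw [uu_apply]
    simp
  rw [h1, MvPolynomial.monomial_eq, Finsupp.prod_fintype _ _ (by simp)]
  congr 1

theorem coeff_alt {n : ℕ} (s : Fin n → ℕ) (t : Fin n →₀ ℕ) :
    (alt s : MvPolynomial (Fin n) L).coeff t =
      ∑ σ : Equiv.Perm (Fin n), MvPolynomial.coeff t
        (MvPolynomial.monomial (uu s σ) (((Equiv.Perm.sign σ : ℤ) : L))) := by
  rw [alt_eq, MvPolynomial.coeff_sum]

theorem UM_alt (h2 : S_TA2) (q : ℕ) (hq : 0 < q) {n : ℕ} (s s' : Fin n → ℕ)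
    (hs : ∀ i, s i = q * s' i + (q - 1)) :
    UM q (alt s : MvPolynomial (Fin n) L) = alt s' := by
  classical
  ext t
  rw [(h2 L q hq n).1, coeff_alt, coeff_alt]
  refine Finset.sum_congr rfl fun σ _ => ?_
  rw [MvPolynomial.coeff_monomial, MvPolynomial.coeff_monomial]
  have : uu s σ = up q t ↔ uu s' σ = t := by
    constructor
    · intro h
      ext k
      have h1 := DFunLike.congr_fun h k
      rw [uu_apply, hs] at h1
      have h3 : up q t k = q * t k + (q - 1) := rfl
      rw [h3] at h1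
      rw [uu_apply]
      have h4 : q * s' (σ⁻¹ k) = q * t k := by omega
      exact Nat.eq_of_mul_eq_mul_left hq h4
    · intro h
      ext k
      have h3 : up q t k = q * t k + (q - 1) := rfl
      rw [uu_apply, hs, h3, ← h, uu_apply]
  simp only [this]

theorem UM_alt_zero (h2 : S_TA2) (q : ℕ) (hq : 0 < q) {n : ℕ} (s : Fin n → ℕ)
    (hs : ∃ i, s i % q ≠ q - 1) :
    UM q (alt s : MvPolynomial (Fin n) L) = 0 := by
  classical
  ext t
  rw [(h2 L q hq n).1, coeff_alt, MvPolynomial.coeff_zero]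
  refine Finset.sum_eq_zero fun σ _ => ?_
  rw [MvPolynomial.coeff_monomial, if_neg]
  intro h
  obtain ⟨i, hi⟩ := hs
  apply hi
  have h1 := DFunLike.congr_fun h (σ i)
  have h3 : up q t (σ i) = q * t (σ i) + (q - 1) := rfl
  rw [uu_apply, h3] at h1
  simp at h1
  rw [h1, Nat.mul_add_mod]
  exact Nat.mod_eq_of_lt (by omega)

theorem degreeOf_alt {n : ℕ} (s : Fin n → ℕ) (M : ℕ) (hs : ∀ i, s i ≤ M) (i : Fin n) :
    (alt s : MvPolynomial (Fin n) L).degreeOf i ≤ M := by
  rw [alt_eq]
  refine (MvPolynomial.degreeOf_sum_le _ _ _).trans ?_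
  refine Finset.sup_le fun σ _ => ?_
  rw [MvPolynomial.degreeOf_le_iff]
  intro m hm
  have h1 := MvPolynomial.support_monomial_subset hm
  rw [Finset.mem_singleton] at h1
  rw [h1, uu_apply]
  exact hs _

theorem degreeOf_esymm {n : ℕ} (k : ℕ) (i : Fin n) :
    (MvPolynomial.esymm (Fin n) L k).degreeOf i ≤ 1 := by
  classical
  rw [MvPolynomial.esymm_eq_sum_monomial]
  refine (MvPolynomial.degreeOf_sum_le _ _ _).trans ?_
  refine Finset.sup_le fun t _ => ?_
  rw [MvPolynomial.degreeOf_le_iff]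
  intro m hm
  have h1 := MvPolynomial.support_monomial_subset hm
  rw [Finset.mem_singleton] at h1
  rw [h1, Finsupp.finsetSum_apply]
  simp only [Finsupp.single_apply]
  rw [Finset.sum_ite_eq']
  split_ifs <;> omega

theorem ee_eq {n : ℕ} (α : Fin n →₀ ℕ) :
    (ee (MvPolynomial.monomial α 1) : MvPolynomial (Fin n) L) =
      ∏ i : Fin n, (MvPolynomial.esymm (Fin n) L (i + 1)) ^ (α i) := by
  unfold ee
  rw [MvPolynomial.esymmAlgHom_apply, MvPolynomial.aeval_monomial, map_one, one_mul,
    Finsupp.prod_fintype _ _ (by simp)]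

theorem degreeOf_ee {n : ℕ} (α : Fin n →₀ ℕ) (p : ℕ) (hα : ∀ i, α i ≤ p) (i : Fin n) :
    (ee (MvPolynomial.monomial α 1) : MvPolynomial (Fin n) L).degreeOf i ≤ n * p := by
  rw [ee_eq]
  refine (MvPolynomial.degreeOf_prod_le _ _ _).trans ?_
  have h1 : ∀ j ∈ (Finset.univ : Finset (Fin n)),
      ((MvPolynomial.esymm (Fin n) L ((j : ℕ) + 1)) ^ (α j)).degreeOf i ≤ p := by
    intro j _
    refine (MvPolynomial.degreeOf_pow_le _ _ _).trans ?_
    calc α j * (MvPolynomial.esymm (Fin n) L ((j : ℕ) + 1)).degreeOf i ≤ p * 1 :=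
          Nat.mul_le_mul (hα j) (degreeOf_esymm _ _)
      _ = p := mul_one p
  refine (Finset.sum_le_sum h1).trans ?_
  simp

theorem hom_alt {n : ℕ} (s : Fin n → ℕ) :
    (alt s : MvPolynomial (Fin n) L).IsHomogeneous (∑ i, s i) := by
  rw [alt_eq]
  refine MvPolynomial.IsHomogeneous.sum _ _ _ fun σ _ => ?_
  refine MvPolynomial.isHomogeneous_monomial _ ?_
  rw [Finsupp.degree_eq_sum]
  simp only [uu_apply]
  exact Equiv.sum_comp σ⁻¹ s

theorem hom_esymm {n : ℕ} (k : ℕ) :
    (MvPolynomial.esymm (Fin n) L k).IsHomogeneous k := by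
  unfold MvPolynomial.esymm
  refine MvPolynomial.IsHomogeneous.sum _ _ _ fun t ht => ?_
  have h1 := MvPolynomial.IsHomogeneous.prod t (fun i => (MvPolynomial.X i : MvPolynomial (Fin n) L))
    (fun _ => 1) (fun i _ => MvPolynomial.isHomogeneous_X _ i)
  rw [Finset.mem_powersetCard] at ht
  simpa [ht.2] using h1

theorem hom_ee {n : ℕ} (α : Fin n →₀ ℕ) :
    (ee (MvPolynomial.monomial α 1) : MvPolynomial (Fin n) L).IsHomogeneous
      (∑ i : Fin n, ((i : ℕ) + 1) * α i) := by
  rw [ee_eq]
  exact MvPolynomial.IsHomogeneous.prod _ _ _ fun i _ => (hom_esymm _).pow _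

/-- a strictly decreasing function with values below `n` -/
theorem anti_eq {n : ℕ} (g : Fin n → ℕ) (hg : StrictAnti g) (hlt : ∀ i, g i < n) (i : Fin n) :
    g i = n - 1 - i := by
  have hup : ∀ k (hk : k < n), g ⟨k, hk⟩ + k ≤ n - 1 := by
    intro k
    induction k with
    | zero =>
      intro hk
      have := hlt ⟨0, hk⟩
      omega
    | succ k ih =>
      intro hk
      have h1 := ih (by omega)
      have h2 : g ⟨k + 1, hk⟩ < g ⟨k, by omega⟩ := hg (by rw [Fin.lt_def]; simp)
      omega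
  have hlo : ∀ j k (hk : k < n), k + j = n - 1 → j ≤ g ⟨k, hk⟩ := by
    intro j
    induction j with
    | zero => intro k hk _; omega
    | succ j ih =>
      intro k hk hj
      have h1 := ih (k + 1) (by omega) (by omega)
      have h2 : g ⟨k + 1, by omega⟩ < g ⟨k, hk⟩ := hg (by rw [Fin.lt_def]; simp)
      omega
  have h1 := hup i.1 i.2
  have h2 := hlo (n - 1 - i.1) i.1 i.2 (by have := i.2; omega)
  have h3 : (⟨i.1, i.2⟩ : Fin n) = i := rfl
  rw [h3] at h1 h2
  omega

open AddMonoidAlgebra in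
theorem lead_DD (n : ℕ) : supDegree toLex (DD L n) = toLex (uu (fun i : Fin n => n - 1 - i) 1) ∧
    Monic toLex (DD L n) := by
  have hsg : ∀ σ : Equiv.Perm (Fin n), (((Equiv.Perm.sign σ : ℤ) : L)) ≠ 0 := by
    intro σ
    rcases Int.units_eq_one_or (Equiv.Perm.sign σ) with h | h
    · rw [h]; simp
    · rw [h]; simp
  have key := supDegree_leadingCoeff_sum_eq (D := toLex) (s := (univ : Finset (Equiv.Perm (Fin n))))
    (i := 1) (f := fun σ : Equiv.Perm (Fin n) =>
      MvPolynomial.monomial (uu (fun i : Fin n => n - 1 - (i : ℕ)) σ)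
        (((Equiv.Perm.sign σ : ℤ) : L))) (mem_univ _) ?_
  · unfold DD
    rw [alt_eq]
    rw [← MvPolynomial.single_eq_monomial, supDegree_single_ne_zero _ (hsg 1),
      leadingCoeff_single toLex.injective] at key
    refine ⟨key.1, ?_⟩
    unfold Monic
    rw [key.2]
    simp
  · intro σ _ hσ
    simp_rw [← MvPolynomial.single_eq_monomial]
    rw [supDegree_single_ne_zero _ (hsg σ), supDegree_single_ne_zero _ (hsg 1)]
    have hne : (univ.filter fun i : Fin n => σ⁻¹ i ≠ i).Nonempty := by
      by_contra hcon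
      rw [Finset.not_nonempty_iff_eq_empty, Finset.filter_eq_empty_iff] at hcon
      apply hσ
      rw [← inv_inj]
      ext i
      have := hcon (mem_univ i)
      push Not at this
      rw [this]
      simp
    set i₀ := (univ.filter fun i : Fin n => σ⁻¹ i ≠ i).min' hne with hi₀
    have hmem := Finset.min'_mem _ hne
    rw [← hi₀, Finset.mem_filter] at hmem
    have hlt : ∀ j, j < i₀ → σ⁻¹ j = j := by
      intro j hj
      by_contra hcon
      have : i₀ ≤ j := Finset.min'_le _ j (Finset.mem_filter.2 ⟨mem_univ j, hcon⟩)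
      exact absurd hj (not_lt.2 this)
    have hgt : i₀ < σ⁻¹ i₀ := by
      rcases lt_trichotomy i₀ (σ⁻¹ i₀) with h | h | h
      · exact h
      · exact absurd h.symm hmem.2
      · have h1 := hlt _ h
        exact absurd (σ⁻¹.injective h1) hmem.2
    refine ⟨i₀, fun k hk => ?_, ?_⟩
    · simp only [ofLex_toLex]
      rw [uu_apply, uu_apply, hlt k hk]
      simp
    · simp only [ofLex_toLex]
      rw [uu_apply, uu_apply]
      rw [Fin.lt_def] at hgt
      have h5 := (σ⁻¹ i₀).2
      have h6 : ((1 : Equiv.Perm (Fin n))⁻¹ i₀) = i₀ := by simp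
      rw [h6]
      omega

open AddMonoidAlgebra in
theorem lead_F {n : ℕ} (α : Fin n →₀ ℕ) :
    (DD L n * ee (MvPolynomial.monomial α 1) : MvPolynomial (Fin n) L).coeff
      (Finsupp.equivFunOnFinite.symm fun i : Fin n =>
        (n - 1 - (i : ℕ)) + ∑ j ∈ Finset.univ.filter (fun j : Fin n => (i : ℕ) ≤ (j : ℕ)), α j) = 1 := by
  obtain ⟨h1, h2⟩ := lead_DD (L := L) n
  have h3 : (ee (MvPolynomial.monomial α 1) : MvPolynomial (Fin n) L) =
      MvPolynomial.esymmAlgHomMonomial (Fin n) α 1 := rfl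
  rw [h3]
  have h4 := MvPolynomial.supDegree_esymmAlgHomMonomial (R := L) (m := n) one_ne_zero α le_rfl
  have h5 : Monic toLex (MvPolynomial.esymmAlgHomMonomial (Fin n) α (1 : L)) :=
    MvPolynomial.leadingCoeff_esymmAlgHomMonomial (R := L) (m := n) α le_rfl
  have h6 : Monic toLex (DD L n * MvPolynomial.esymmAlgHomMonomial (Fin n) α (1 : L)) :=
    h2.mul toLex.injective toLex_add h5
  have h7 := h2.supDegree_mul_of_ne_zero_right toLex.injective toLex_add h5.ne_zero
  have h8 : (DD L n * MvPolynomial.esymmAlgHomMonomial (Fin n) α (1 : L)).coeff (ofLex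
      (supDegree toLex (DD L n * MvPolynomial.esymmAlgHomMonomial (Fin n) α (1 : L)))) = 1 := by
    rw [← MvPolynomial.leadingCoeff_toLex]
    exact h6
  have h9 : (Finsupp.equivFunOnFinite.symm fun i : Fin n => (n - 1 - (i : ℕ)) +
      ∑ j ∈ Finset.univ.filter (fun j : Fin n => (i : ℕ) ≤ (j : ℕ)), α j) = ofLex
      (supDegree toLex (DD L n * MvPolynomial.esymmAlgHomMonomial (Fin n) α (1 : L))) := by
    rw [h7, ofLex_add, h1, ofLex_toLex]
    ext i
    rw [Finsupp.add_apply, h4, uu_apply]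
    simp [Fin.accumulate_apply]
  rw [h9]
  exact h8

end

theorem ta6 : S_TA2 → S_TA4 → S_TA6 := by
  classical
  intro h2 h4 L _ q hq n α hα
  set f : MvPolynomial (Fin n) L := ee (MvPolynomial.monomial α 1) with hf
  have hsym : f.IsSymmetric := MvPolynomial.isSymmetric_esymmAlgHomMonomial α 1
  have hdeg : ∀ i, (DD L n * f).degreeOf i ≤ n * q - 1 := by
    intro i
    refine (MvPolynomial.degreeOf_mul_le _ _ _).trans ?_
    have h5 : (DD L n).degreeOf i ≤ n - 1 := by
      unfold DD
      exact degreeOf_alt _ _ (fun j => by omega) i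
    have h6 : f.degreeOf i ≤ n * (q - 1) := degreeOf_ee α (q - 1) hα i
    have h7 : n * q = n * (q - 1) + n := by
      obtain ⟨p, rfl⟩ : ∃ p, q = p + 1 := ⟨q - 1, by omega⟩
      simp
      ring
    have h8 : 0 < n := i.pos
    omega
  have hF := h4 L (n * q - 1) n f hsym hdeg
  -- the only index which survives
  have hbd : ∀ i : Fin n, q * (n - 1 - (i : ℕ)) + (q - 1) < n * q - 1 + 1 := by
    intro i
    have h8 : 0 < n := i.pos
    have h9 : q * (n - 1 - (i : ℕ)) ≤ q * (n - 1) := Nat.mul_le_mul_left q (by omega)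
    have h10 : n * q = q * (n - 1) + q := by
      obtain ⟨m, rfl⟩ : ∃ m, n = m + 1 := ⟨n - 1, by omega⟩
      simp
      ring
    omega
  set s₀ : Fin n → Fin (n * q - 1 + 1) := fun i => ⟨q * (n - 1 - (i : ℕ)) + (q - 1), hbd i⟩
    with hs₀
  have hs₀m : s₀ ∈ St n (n * q - 1) := by
    unfold St
    rw [Finset.mem_filter]
    refine ⟨mem_univ _, ?_⟩
    intro i j hij
    rw [Fin.lt_def] at hij
    rw [Fin.lt_def, hs₀]
    simp only
    have h11 : q * (n - 1 - (j : ℕ)) < q * (n - 1 - (i : ℕ)) :=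
      Nat.mul_lt_mul_of_pos_left (by have := j.2; omega) hq
    omega
  set c : L := (DD L n * f).coeff (Finsupp.equivFunOnFinite.symm fun i => (s₀ i : ℕ)) with hc
  have hG : UM q (DD L n * f) = c • DD L n := by
    have hU : UM q (alt (fun i => (s₀ i : ℕ)) : MvPolynomial (Fin n) L) = DD L n := by
      unfold DD
      exact UM_alt h2 q hq _ _ (fun i => rfl)
    ext t
    have hU' : (DD L n).coeff t = (alt (fun i => (s₀ i : ℕ)) : MvPolynomial (Fin n) L).coeff
        (up q t) := by
      rw [← hU, (h2 L q hq n).1]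
    rw [(h2 L q hq n).1, hF, MvPolynomial.coeff_sum, Finset.sum_eq_single s₀]
    · rw [MvPolynomial.coeff_smul, MvPolynomial.coeff_smul, hU']
    · intro s hs hne
      rw [MvPolynomial.coeff_smul, ← (h2 L q hq n).1, UM_alt_zero h2 q hq]
      · simp
      · by_contra hcon
        push Not at hcon
        apply hne
        unfold St at hs
        rw [Finset.mem_filter] at hs
        have hg := anti_eq (fun i : Fin n => (s i : ℕ) / q) (by
          intro i j hij
          have h12 : (s j : ℕ) < (s i : ℕ) := hs.2 hij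
          have h13 := Nat.div_add_mod (s i : ℕ) q
          have h14 := Nat.div_add_mod (s j : ℕ) q
          rw [hcon i] at h13
          rw [hcon j] at h14
          show (s j : ℕ) / q < (s i : ℕ) / q
          by_contra h15
          push Not at h15
          have h16 : q * ((s i : ℕ) / q) ≤ q * ((s j : ℕ) / q) := Nat.mul_le_mul_left q h15
          omega) (by
          intro i
          have h8 : 0 < n := i.pos
          have h17 : (s i : ℕ) < n * q := by
            have h18 := (s i).2
            have h19 : 0 < n * q := Nat.mul_pos h8 hq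
            omega
          exact (Nat.div_lt_iff_lt_mul hq).2 h17)
        funext i
        apply Fin.ext
        have h13 := Nat.div_add_mod (s i : ℕ) q
        rw [hcon i] at h13
        have h20 : (s i : ℕ) / q = n - 1 - i := hg i
        rw [h20] at h13
        rw [← h13]
    · intro h
      exact absurd hs₀m h
  rw [hG]
  by_cases hall : ∀ i, α i = q - 1
  · rw [if_pos hall]
    have hc1 : c = 1 := by
      suffices hsuf : (Finsupp.equivFunOnFinite.symm fun i => (s₀ i : ℕ)) =
          Finsupp.equivFunOnFinite.symm fun i : Fin n => (n - 1 - (i : ℕ)) +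
            ∑ j ∈ Finset.univ.filter (fun j : Fin n => (i : ℕ) ≤ (j : ℕ)), α j by
        rw [hc, hf, hsuf]
        exact lead_F α
      ext i
      show q * (n - 1 - (i : ℕ)) + (q - 1) =
        (n - 1 - (i : ℕ)) + ∑ j ∈ Finset.univ.filter (fun j : Fin n => (i : ℕ) ≤ (j : ℕ)), α j
      have h21 : ∑ j ∈ Finset.univ.filter (fun j : Fin n => (i : ℕ) ≤ (j : ℕ)), α j =
          (n - i) * (q - 1) := by
        rw [Finset.sum_congr rfl (fun j _ => hall j), Finset.sum_const, smul_eq_mul]
        congr 1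
        have h22 : (univ.filter fun j : Fin n => (i : ℕ) ≤ (j : ℕ)) = Finset.Ici i := by
          ext j
          rw [Finset.mem_filter, Finset.mem_Ici, Fin.le_def]
          exact ⟨fun h => h.2, fun h => ⟨mem_univ _, h⟩⟩
        rw [h22, Fin.card_Ici]
      rw [h21]
      obtain ⟨p, rfl⟩ : ∃ p, q = p + 1 := ⟨q - 1, by omega⟩
      have h23 : n - (i : ℕ) = (n - 1 - (i : ℕ)) + 1 := by
        have := i.2
        omega
      rw [h23]
      simp
      ring
    rw [hc1, one_smul]
  · rw [if_neg hall]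
    have hc0 : c = 0 := by
      have hh : (DD L n * f).IsHomogeneous ((∑ i : Fin n, (n - 1 - (i : ℕ))) +
          ∑ i : Fin n, ((i : ℕ) + 1) * α i) := by
        unfold DD
        exact (hom_alt _).mul (hom_ee α)
      rw [hc]
      apply hh.coeff_eq_zero
      rw [Finsupp.degree_eq_sum]
      intro he
      apply hall
      have h24 : ∑ i : Fin n, (q * (n - 1 - (i : ℕ)) + (q - 1)) =
          (∑ i : Fin n, (n - 1 - (i : ℕ))) + ∑ i : Fin n, ((i : ℕ) + 1) * α i := he
      have h25 : ∑ i : Fin n, (q * (n - 1 - (i : ℕ)) + (q - 1)) =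
          (∑ i : Fin n, (n - 1 - (i : ℕ))) + ∑ i : Fin n, ((i : ℕ) + 1) * (q - 1) := by
        rw [← Equiv.sum_comp Fin.revPerm (fun i : Fin n => ((i : ℕ) + 1) * (q - 1)),
          ← Finset.sum_add_distrib]
        refine Finset.sum_congr rfl fun i _ => ?_
        rw [Fin.revPerm_apply, Fin.val_rev]
        obtain ⟨p, rfl⟩ : ∃ p, q = p + 1 := ⟨q - 1, by omega⟩
        have h23 : n - ((i : ℕ) + 1) = n - 1 - (i : ℕ) := by omega
        rw [h23]
        simp
        ring
      rw [h25] at h24
      have h26 : ∑ i : Fin n, ((i : ℕ) + 1) * α i = ∑ i : Fin n, ((i : ℕ) + 1) * (q - 1) := by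
        omega
      have h27 := (Finset.sum_eq_sum_iff_of_le
        (fun (i : Fin n) _ => Nat.mul_le_mul_left ((i : ℕ) + 1) (hα i))).1 h26
      intro i
      have h28 := h27 i (mem_univ i)
      exact Nat.eq_of_mul_eq_mul_left (by omega) h28
    rw [hc0, zero_smul]

end Pool.Agent.W753.GK.TA6
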